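import Pool.Agent.K1H34.UNI.Stm

set_option autoImplicit false

/-! # Concentration of the part not covered by independent random sets -/

open Finset Classical

namespace Pool.Agent.K1H97.UNI

open Pool.Agent.K1H34.UNI Pool.Agent.K1H34

section conc

variable {Ω V : Type} [Fintype Ω]

/-- one random set -/
theorem conc_one (W : Ω → ℝ) (hW : ∀ ω, 0 ≤ W ω) (h1 : ∑ ω, W ω = 1) (f : Ω → Finset V)
    (Nn : Finset V) (Bd τ : ℝ)
    (hτ : ∀ u ∈ Nn, τ ≤ ∑ ω ∈ univ.filter (fun ω => u ∈ f ω ∧ ((f ω ∩ Nn).card : ℝ) ≤ Bd), W ω)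
    (s : ℝ) (hs : 0 ≤ s) (hs1 : s * Bd ≤ 1) (A : Finset V) (hA : A ⊆ Nn) :
    ∑ ω, W ω * Real.exp (s * ((A \ f ω).card : ℝ)) ≤
      Real.exp (s * (1 - τ / 2) * (A.card : ℝ)) := by
  have hpt : ∀ ω, W ω * Real.exp (s * ((A \ f ω).card : ℝ)) ≤ Real.exp (s * (A.card : ℝ)) *
      (W ω - s / 2 * ∑ u ∈ A,
        if (u ∈ f ω ∧ ((f ω ∩ Nn).card : ℝ) ≤ Bd) then W ω else 0) := by
    intro ω
    have hc : ((A \ f ω).card : ℝ) = (A.card : ℝ) - ((A ∩ f ω).card : ℝ) := by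
      have h2 := Finset.card_sdiff_add_card_inter A (f ω)
      have h3 : ((A \ f ω).card : ℝ) + ((A ∩ f ω).card : ℝ) = (A.card : ℝ) := by exact_mod_cast h2
      linarith
    have he : Real.exp (s * ((A \ f ω).card : ℝ)) = Real.exp (s * (A.card : ℝ)) *
        Real.exp (-(s * ((A ∩ f ω).card : ℝ))) := by
      rw [← Real.exp_add, hc]
      ring_nf
    have hE := Real.exp_pos (s * (A.card : ℝ))
    by_cases hb : ((f ω ∩ Nn).card : ℝ) ≤ Bd
    · have hsum : ∑ u ∈ A, (if (u ∈ f ω ∧ ((f ω ∩ Nn).card : ℝ) ≤ Bd) then W ω else 0) =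
          ((A ∩ f ω).card : ℝ) * W ω := by
        rw [← Finset.sum_filter, Finset.sum_const, nsmul_eq_mul]
        congr 3
        ext u
        rw [Finset.mem_filter, Finset.mem_inter]
        exact ⟨fun h => ⟨h.1, h.2.1⟩, fun h => ⟨h.1, h.2, hb⟩⟩
      have hle : ((A ∩ f ω).card : ℝ) ≤ Bd := by
        refine le_trans ?_ hb
        have : (A ∩ f ω).card ≤ (f ω ∩ Nn).card := by
          refine Finset.card_le_card fun u hu => ?_
          rw [Finset.mem_inter] at hu ⊢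
          exact ⟨hu.2, hA hu.1⟩
        exact_mod_cast this
      have hy0 : 0 ≤ s * ((A ∩ f ω).card : ℝ) := mul_nonneg hs (Nat.cast_nonneg _)
      have hy1 : s * ((A ∩ f ω).card : ℝ) ≤ 1 :=
        (mul_le_mul_of_nonneg_left hle hs).trans hs1
      have h4 := UHC.exp_le_aux hy0 hy1
      rw [hsum, he]
      have h5 : W ω * Real.exp (-(s * ((A ∩ f ω).card : ℝ))) ≤
          W ω * (1 - s * ((A ∩ f ω).card : ℝ) / 2) := mul_le_mul_of_nonneg_left h4 (hW ω)
      calc W ω * (Real.exp (s * (A.card : ℝ)) * Real.exp (-(s * ((A ∩ f ω).card : ℝ)))) =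
          Real.exp (s * (A.card : ℝ)) * (W ω * Real.exp (-(s * ((A ∩ f ω).card : ℝ)))) := by ring
        _ ≤ Real.exp (s * (A.card : ℝ)) * (W ω * (1 - s * ((A ∩ f ω).card : ℝ) / 2)) :=
            mul_le_mul_of_nonneg_left h5 hE.le
        _ = _ := by ring
    · have hsum : ∑ u ∈ A, (if (u ∈ f ω ∧ ((f ω ∩ Nn).card : ℝ) ≤ Bd) then W ω else 0) = 0 :=
        Finset.sum_eq_zero fun u _ => if_neg fun h => hb h.2
      rw [hsum, mul_zero, sub_zero, he]
      have h4 : Real.exp (-(s * ((A ∩ f ω).card : ℝ))) ≤ 1 := by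
        rw [Real.exp_le_one_iff]
        have := mul_nonneg hs (Nat.cast_nonneg (α := ℝ) (A ∩ f ω).card)
        linarith
      have h5 : W ω * Real.exp (-(s * ((A ∩ f ω).card : ℝ))) ≤ W ω * 1 :=
        mul_le_mul_of_nonneg_left h4 (hW ω)
      calc W ω * (Real.exp (s * (A.card : ℝ)) * Real.exp (-(s * ((A ∩ f ω).card : ℝ)))) =
          Real.exp (s * (A.card : ℝ)) * (W ω * Real.exp (-(s * ((A ∩ f ω).card : ℝ)))) := by ring
        _ ≤ Real.exp (s * (A.card : ℝ)) * (W ω * 1) :=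
            mul_le_mul_of_nonneg_left h5 hE.le
        _ = _ := by ring
  refine (Finset.sum_le_sum fun ω _ => hpt ω).trans ?_
  rw [← Finset.mul_sum, Finset.sum_sub_distrib, h1, ← Finset.mul_sum, Finset.sum_comm]
  have h6 : τ * (A.card : ℝ) ≤ ∑ u ∈ A, ∑ ω,
      (if (u ∈ f ω ∧ ((f ω ∩ Nn).card : ℝ) ≤ Bd) then W ω else 0) := by
    have h7 : ∑ u ∈ A, τ ≤ ∑ u ∈ A, ∑ ω,
        (if (u ∈ f ω ∧ ((f ω ∩ Nn).card : ℝ) ≤ Bd) then W ω else 0) := by
      refine Finset.sum_le_sum fun u hu => ?_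
      rw [← Finset.sum_filter]
      exact hτ u (hA hu)
    rw [Finset.sum_const, nsmul_eq_mul] at h7
    linarith
  have h8 : s / 2 * (τ * (A.card : ℝ)) ≤ s / 2 * ∑ u ∈ A, ∑ ω,
      (if (u ∈ f ω ∧ ((f ω ∩ Nn).card : ℝ) ≤ Bd) then W ω else 0) :=
    mul_le_mul_of_nonneg_left h6 (by linarith)
  have h9 : 1 - s / 2 * ∑ u ∈ A, ∑ ω,
      (if (u ∈ f ω ∧ ((f ω ∩ Nn).card : ℝ) ≤ Bd) then W ω else 0) ≤
      Real.exp (-(s / 2 * (τ * (A.card : ℝ)))) := by
    have := Real.add_one_le_exp (-(s / 2 * (τ * (A.card : ℝ))))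
    linarith
  refine (mul_le_mul_of_nonneg_left h9 (Real.exp_pos _).le).trans (le_of_eq ?_)
  rw [← Real.exp_add]
  ring_nf

/-- `k` independent random sets -/
theorem conc_k (W : Ω → ℝ) (hW : ∀ ω, 0 ≤ W ω) (h1 : ∑ ω, W ω = 1) (f : Ω → Finset V)
    (Nn : Finset V) (Bd τ : ℝ) (hB : 0 < Bd) (hτ0 : 0 ≤ τ) (hτ1 : τ ≤ 1)
    (hτ : ∀ u ∈ Nn, τ ≤ ∑ ω ∈ univ.filter (fun ω => u ∈ f ω ∧ ((f ω ∩ Nn).card : ℝ) ≤ Bd), W ω)
    (s : ℝ) (hs : 0 ≤ s) (hs1 : s * Bd ≤ 1) : ∀ (k : ℕ) (A : Finset V), A ⊆ Nn →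
    ∑ ω : Fin k → Ω, (∏ j, W (ω j)) *
      Real.exp (s * ((A \ univ.biUnion (fun j => f (ω j))).card : ℝ)) ≤
      Real.exp (s * (1 - τ / 2) ^ k * (A.card : ℝ)) := by
  intro k
  induction k with
  | zero =>
    intro A hA
    simp
  | succ k ih =>
    intro A hA
    have hr0 : 0 ≤ (1 - τ / 2) ^ k := pow_nonneg (by linarith) _
    have hr1 : (1 - τ / 2) ^ k ≤ 1 := pow_le_one₀ (by linarith) (by linarith)
    rw [← Equiv.sum_comp (Fin.consEquiv (fun _ : Fin (k + 1) => Ω)), Fintype.sum_prod_type]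
    have hin : ∀ a : Ω, ∑ ω : Fin k → Ω,
        (∏ j, W ((Fin.consEquiv (fun _ : Fin (k + 1) => Ω)) (a, ω) j)) *
        Real.exp (s * ((A \ univ.biUnion (fun j =>
          f ((Fin.consEquiv (fun _ : Fin (k + 1) => Ω)) (a, ω) j))).card : ℝ)) ≤
        W a * Real.exp ((s * (1 - τ / 2) ^ k) * ((A \ f a).card : ℝ)) := by
      intro a
      have h2 := ih (A \ f a) (Finset.sdiff_subset.trans hA)
      refine le_trans (le_of_eq ?_) (mul_le_mul_of_nonneg_left h2 (hW a))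
      rw [Finset.mul_sum]
      refine Finset.sum_congr rfl fun ω _ => ?_
      have h3 : A \ univ.biUnion (fun j =>
          f ((Fin.consEquiv (fun _ : Fin (k + 1) => Ω)) (a, ω) j)) =
          (A \ f a) \ univ.biUnion (fun j => f (ω j)) := by
        ext u
        simp only [Finset.mem_sdiff, Finset.mem_biUnion, Finset.mem_univ, true_and, not_exists,
          Fin.consEquiv_apply]
        constructor
        · rintro ⟨h4, h5⟩
          refine ⟨⟨h4, ?_⟩, fun j => ?_⟩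
          · have := h5 0
            rwa [Fin.cons_zero] at this
          · have := h5 j.succ
            rwa [Fin.cons_succ] at this
        · rintro ⟨⟨h4, h5⟩, h6⟩
          refine ⟨h4, fun j => ?_⟩
          refine Fin.cases ?_ (fun j => ?_) j
          · rw [Fin.cons_zero]; exact h5
          · rw [Fin.cons_succ]; exact h6 j
      rw [h3, Fin.prod_univ_succ]
      simp only [Fin.consEquiv_apply, Fin.cons_zero, Fin.cons_succ]
      ring
    refine (Finset.sum_le_sum fun a _ => hin a).trans ?_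
    refine (conc_one W hW h1 f Nn Bd τ hτ (s * (1 - τ / 2) ^ k) (mul_nonneg hs hr0) ?_ A
      hA).trans (le_of_eq ?_)
    · calc s * (1 - τ / 2) ^ k * Bd = (1 - τ / 2) ^ k * (s * Bd) := by ring
        _ ≤ 1 * 1 := mul_le_mul hr1 hs1 (by positivity) zero_le_one
        _ = 1 := one_mul 1
    · rw [pow_succ]
      ring_nf

end conc

/-- concentration for the part of `Nn` not covered by `k` independent random sets -/
theorem t_CONC : S_CONC := by
  intro Ω V _ _ W hW h1 f Nn Bd τ hB hτ0 hτ k y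
  have main : ∀ τ : ℝ, 0 ≤ τ → τ ≤ 1 → (∀ u ∈ Nn, τ ≤ ∑ ω ∈ univ.filter
      (fun ω => u ∈ f ω ∧ ((f ω ∩ Nn).card : ℝ) ≤ Bd), W ω) →
      ∑ ω ∈ univ.filter (fun ω : Fin k → Ω =>
        y ≤ ((Nn \ univ.biUnion (fun j => f (ω j))).card : ℝ)), ∏ j, W (ω j) ≤
      Real.exp (-((y - Real.exp (-(k * τ / 2)) * (Nn.card : ℝ)) / Bd)) := by
    intro τ hτ0 hτ1 hτ
    have hs : 0 ≤ 1 / Bd := by positivity
    have hs1 : 1 / Bd * Bd ≤ 1 := by rw [one_div, inv_mul_cancel₀ hB.ne']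
    have h2 := conc_k W hW h1 f Nn Bd τ hB hτ0 hτ1 hτ (1 / Bd) hs hs1 k Nn (le_refl _)
    have h3 : (∑ ω ∈ univ.filter (fun ω : Fin k → Ω =>
        y ≤ ((Nn \ univ.biUnion (fun j => f (ω j))).card : ℝ)), ∏ j, W (ω j)) *
        Real.exp (1 / Bd * y) ≤ ∑ ω : Fin k → Ω, (∏ j, W (ω j)) *
      Real.exp (1 / Bd * ((Nn \ univ.biUnion (fun j => f (ω j))).card : ℝ)) := by
      rw [Finset.sum_mul]
      refine le_trans (Finset.sum_le_sum fun ω hω => ?_)
        (Finset.sum_le_sum_of_subset_of_nonneg (Finset.filter_subset _ _) fun ω _ _ =>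
          mul_nonneg (Finset.prod_nonneg fun _ _ => hW _) (Real.exp_pos _).le)
      refine mul_le_mul_of_nonneg_left ?_ (Finset.prod_nonneg fun _ _ => hW _)
      exact Real.exp_le_exp.mpr (mul_le_mul_of_nonneg_left (Finset.mem_filter.mp hω).2 hs)
    have h4 : (1 - τ / 2) ^ k ≤ Real.exp (-(k * τ / 2)) := by
      have h5 : 1 - τ / 2 ≤ Real.exp (-(τ / 2)) := by
        have := Real.add_one_le_exp (-(τ / 2))
        linarith
      refine (pow_le_pow_left₀ (by linarith) h5 k).trans (le_of_eq ?_)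
      rw [← Real.exp_nat_mul]
      ring_nf
    have h6 : Real.exp (1 / Bd * (1 - τ / 2) ^ k * (Nn.card : ℝ)) ≤
        Real.exp (1 / Bd * Real.exp (-(k * τ / 2)) * (Nn.card : ℝ)) := by
      refine Real.exp_le_exp.mpr ?_
      exact mul_le_mul_of_nonneg_right (mul_le_mul_of_nonneg_left h4 hs) (Nat.cast_nonneg _)
    have h7 := (h3.trans h2).trans h6
    rw [← le_div_iff₀ (Real.exp_pos _), ← Real.exp_sub] at h7
    refine h7.trans (le_of_eq ?_)
    congr 1
    ring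
  rcases Finset.eq_empty_or_nonempty Nn with he | ⟨u, hu⟩
  · have h2 := main 0 le_rfl zero_le_one (fun u hu => by rw [he] at hu; simp at hu)
    refine h2.trans (le_of_eq ?_)
    rw [he]
    simp
  · refine main τ hτ0 ?_ hτ
    refine (hτ u hu).trans ?_
    rw [← h1]
    exact Finset.sum_le_sum_of_subset_of_nonneg (Finset.filter_subset _ _) fun ω _ _ => hW ω

end Pool.Agent.K1H97.UNI
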