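import Pool.Agent.K1H34.UNI.Stm

set_option autoImplicit false

/-! # Finite weighted spaces -/

open Finset Classical

namespace Pool.Agent.K1H97.UNI

open Pool.Agent.K1H34.UNI

/-- a finite weighted space with events of given weights -/
theorem t_SRC : S_SRC := by
  intro P hP
  let f : {p // p ∈ P} → Bool → ℝ := fun p b => if b = true then (p : ℝ) else 1 - p
  have hf : ∀ p : {p // p ∈ P}, ∑ b ∈ (univ : Finset Bool), f p b = 1 := by
    intro p
    rw [Fintype.sum_bool]
    simp [f]
  refine ⟨{p // p ∈ P} → Bool, inferInstance, fun c => ∏ p, f p (c p),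
    fun p => if h : p ∈ P then univ.filter (fun c => c ⟨p, h⟩ = true) else ∅, ?_, ?_, ?_⟩
  · intro c
    refine Finset.prod_nonneg fun p _ => ?_
    have h := hP p.1 p.2
    simp only [f]
    split_ifs
    · exact h.1
    · linarith [h.2]
  · have h := Finset.prod_univ_sum (fun _ : {p // p ∈ P} => (univ : Finset Bool)) f
    rw [Fintype.piFinset_univ] at h
    rw [← h]
    exact Finset.prod_eq_one fun p _ => hf p
  · intro p hp
    simp only [dif_pos hp]
    have h := Finset.prod_univ_sum (fun r : {p // p ∈ P} =>
      (if r = ⟨p, hp⟩ then {true} else univ : Finset Bool)) f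
    have h2 : Fintype.piFinset (fun r : {p // p ∈ P} =>
        (if r = ⟨p, hp⟩ then {true} else univ : Finset Bool)) =
        univ.filter (fun c : {p // p ∈ P} → Bool => c ⟨p, hp⟩ = true) := by
      ext c
      rw [Fintype.mem_piFinset, Finset.mem_filter]
      constructor
      · intro h
        have := h ⟨p, hp⟩
        rw [if_pos rfl, Finset.mem_singleton] at this
        exact ⟨Finset.mem_univ _, this⟩
      · rintro ⟨-, h⟩ r
        by_cases hr : r = ⟨p, hp⟩
        · rw [if_pos hr, hr, Finset.mem_singleton]
          exact h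
        · rw [if_neg hr]
          exact Finset.mem_univ _
    rw [h2] at h
    rw [← h, Finset.prod_eq_single ⟨p, hp⟩]
    · rw [if_pos rfl, Finset.sum_singleton]
      simp [f]
    · intro r _ hr
      rw [if_neg hr]
      exact hf r
    · intro h
      exact absurd (Finset.mem_univ _) h

/-- independent events of given weights -/
theorem t_ONE : S_ONE := by
  intro X C _ _ w E q x h1 hE f
  rw [← Finset.sum_fiberwise (s := (univ : Finset (X → C)))
    (g := fun ω => univ.filter (fun v => ω v ∈ E v))]
  refine Finset.sum_congr rfl fun A _ => ?_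
  have hA : ∑ ω ∈ univ.filter (fun ω : X → C => univ.filter (fun v => ω v ∈ E v) = A),
      (∏ v, w (ω v)) * f (univ.filter (fun v => ω v ∈ E v)) =
      (∑ ω ∈ univ.filter (fun ω : X → C => univ.filter (fun v => ω v ∈ E v) = A),
      (∏ v, w (ω v))) * f A := by
    rw [Finset.sum_mul]
    refine Finset.sum_congr rfl fun ω hω => ?_
    rw [(Finset.mem_filter.mp hω).2]
  rw [hA]
  congr 1
  have h := Finset.prod_univ_sum (fun v : X => (if v ∈ A then E v else univ \ E v : Finset C))
    (fun _ c => w c)
  have h2 : Fintype.piFinset (fun v : X => (if v ∈ A then E v else univ \ E v : Finset C)) =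
      univ.filter (fun ω : X → C => univ.filter (fun v => ω v ∈ E v) = A) := by
    ext ω
    rw [Fintype.mem_piFinset, Finset.mem_filter]
    constructor
    · intro h
      refine ⟨Finset.mem_univ _, ?_⟩
      ext v
      rw [Finset.mem_filter]
      have hv := h v
      by_cases hvA : v ∈ A
      · rw [if_pos hvA] at hv
        exact ⟨fun _ => hvA, fun _ => ⟨Finset.mem_univ _, hv⟩⟩
      · rw [if_neg hvA, Finset.mem_sdiff] at hv
        exact ⟨fun h => absurd h.2 hv.2, fun h => absurd h hvA⟩
    · rintro ⟨-, h⟩ v
      by_cases hvA : v ∈ A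
      · rw [if_pos hvA]
        rw [← h, Finset.mem_filter] at hvA
        exact hvA.2
      · rw [if_neg hvA, Finset.mem_sdiff]
        refine ⟨Finset.mem_univ _, fun hv => hvA ?_⟩
        rw [← h, Finset.mem_filter]
        exact ⟨Finset.mem_univ _, hv⟩
  rw [← h2, ← h, Pr, ← Finset.prod_sdiff (Finset.subset_univ A), mul_comm]
  congr 1
  · refine Finset.prod_congr rfl fun v hv => ?_
    rw [if_pos hv, hE]
  · refine Finset.prod_congr rfl fun v hv => ?_
    rw [if_neg (Finset.mem_sdiff.mp hv).2]
    have h3 := Finset.sum_sdiff (f := w) (Finset.subset_univ (E v))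
    rw [h1, hE] at h3
    linarith

end Pool.Agent.K1H97.UNI
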