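import Pool.Agent.K1H34.UNI.Stm

set_option autoImplicit false

/-! # Symmetric local lemma for a product of weighted finite spaces -/

open Finset Classical

namespace Pool.Agent.K1H97.UNI

open Pool.Agent.K1H34.UNI

section wl

variable {T C ι : Type} [Fintype T] [Fintype C]

/-- weight of an event -/
noncomputable def W (w : C → ℝ) (P : (T → C) → Prop) : ℝ :=
  ∑ ω : T → C, if P ω then ∏ t, w (ω t) else 0

theorem W_eq (w : C → ℝ) (P : (T → C) → Prop) :
    W w P = ∑ ω ∈ univ.filter (fun ω : T → C => P ω), ∏ t, w (ω t) := by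
  rw [W, Finset.sum_filter]

omit [Fintype C] in
theorem pr_nonneg {w : C → ℝ} (hw : ∀ c, 0 ≤ w c) (ω : T → C) : 0 ≤ ∏ t, w (ω t) :=
  Finset.prod_nonneg fun _ _ => hw _

theorem W_nonneg {w : C → ℝ} (hw : ∀ c, 0 ≤ w c) (P : (T → C) → Prop) : 0 ≤ W w P := by
  refine Finset.sum_nonneg fun ω _ => ?_
  split_ifs
  · exact pr_nonneg hw ω
  · exact le_rfl

theorem W_mono {w : C → ℝ} (hw : ∀ c, 0 ≤ w c) {P Q : (T → C) → Prop} (h : ∀ ω, P ω → Q ω) :
    W w P ≤ W w Q := by
  refine Finset.sum_le_sum fun ω _ => ?_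
  by_cases h1 : P ω
  · rw [if_pos h1, if_pos (h ω h1)]
  · rw [if_neg h1]
    split_ifs
    · exact pr_nonneg hw ω
    · exact le_rfl

theorem W_cover {w : C → ℝ} (hw : ∀ c, 0 ≤ w c) {P Q : (T → C) → Prop} (J : Finset ι)
    (R : ι → (T → C) → Prop) (h : ∀ ω, P ω → Q ω ∨ ∃ j ∈ J, R j ω) :
    W w P ≤ W w Q + ∑ j ∈ J, W w (R j) := by
  unfold W
  rw [Finset.sum_comm, ← Finset.sum_add_distrib]
  refine Finset.sum_le_sum fun ω _ => ?_
  have h0 := pr_nonneg hw ω
  have h1 : ∀ j ∈ J, 0 ≤ (if R j ω then ∏ t, w (ω t) else 0) := by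
    intro j _
    split_ifs
    · exact h0
    · exact le_rfl
  have h2 : 0 ≤ ∑ j ∈ J, (if R j ω then ∏ t, w (ω t) else 0) := Finset.sum_nonneg h1
  by_cases hP : P ω
  · rw [if_pos hP]
    rcases h ω hP with hQ | ⟨j, hj, hR⟩
    · rw [if_pos hQ]
      linarith
    · have h3 := Finset.single_le_sum h1 hj
      rw [if_pos hR] at h3
      split_ifs <;> linarith
  · rw [if_neg hP]
    split_ifs <;> linarith

theorem W_true {w : C → ℝ} (h1 : ∑ c, w c = 1) : ∑ ω : T → C, ∏ t, w (ω t) = 1 := by
  have h := Finset.prod_univ_sum (fun _ : T => (univ : Finset C)) (fun _ c => w c)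
  rw [Fintype.piFinset_univ] at h
  rw [← h, h1]
  simp

/-- swap the coordinates outside `S` -/
noncomputable def swap (S : Finset T) : (T → C) × (T → C) ≃ (T → C) × (T → C) where
  toFun w := (fun t => if t ∈ S then w.1 t else w.2 t, fun t => if t ∈ S then w.2 t else w.1 t)
  invFun w := (fun t => if t ∈ S then w.1 t else w.2 t, fun t => if t ∈ S then w.2 t else w.1 t)
  left_inv w := by
    refine Prod.ext ?_ ?_ <;> funext t <;> by_cases h : t ∈ S <;> simp [h]
  right_inv w := by
    refine Prod.ext ?_ ?_ <;> funext t <;> by_cases h : t ∈ S <;> simp [h]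

theorem indep {w : C → ℝ} (h1 : ∑ c, w c = 1) (P Q : (T → C) → Prop) (S : Finset T)
    (hP : Dep P S) (hQ : ∀ ω ω' : T → C, (∀ t, t ∉ S → ω t = ω' t) → (Q ω → Q ω')) :
    W w (fun ω => P ω ∧ Q ω) = W w P * W w Q := by
  have e1 : W w (fun ω => P ω ∧ Q ω) = ∑ x : (T → C) × (T → C),
      (if P x.1 ∧ Q x.1 then ∏ t, w (x.1 t) else 0) * ∏ t, w (x.2 t) := by
    rw [Fintype.sum_prod_type]
    simp only
    simp_rw [← Finset.mul_sum]
    rw [W_true h1]
    simp only [mul_one]
    rw [W]
    refine Finset.sum_congr rfl fun ω _ => ?_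
    congr
  have e2 : W w P * W w Q = ∑ x : (T → C) × (T → C),
      (if P x.1 then ∏ t, w (x.1 t) else 0) * (if Q x.2 then ∏ t, w (x.2 t) else 0) := by
    rw [Fintype.sum_prod_type, W, W, Finset.sum_mul_sum]
  rw [e1, e2, ← Equiv.sum_comp (swap S)]
  refine Finset.sum_congr rfl fun x _ => ?_
  have hpr : (∏ t, w ((swap S x).1 t)) * ∏ t, w ((swap S x).2 t) =
      (∏ t, w (x.1 t)) * ∏ t, w (x.2 t) := by
    rw [← Finset.prod_mul_distrib, ← Finset.prod_mul_distrib]
    refine Finset.prod_congr rfl fun t _ => ?_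
    by_cases h : t ∈ S
    · simp [swap, h]
    · simp [swap, h, mul_comm]
  have hiff : (P (swap S x).1 ∧ Q (swap S x).1) ↔ (P x.1 ∧ Q x.2) := by
    constructor
    · rintro ⟨hp, hq⟩
      exact ⟨hP _ x.1 (fun t ht => by simp [swap, ht]) hp,
        hQ _ x.2 (fun t ht => by simp [swap, ht]) hq⟩
    · rintro ⟨hp, hq⟩
      exact ⟨hP x.1 _ (fun t ht => by simp [swap, ht]) hp,
        hQ x.2 _ (fun t ht => by simp [swap, ht]) hq⟩
  by_cases hc : P x.1 ∧ Q x.2
  · rw [if_pos (hiff.mpr hc), if_pos hc.1, if_pos hc.2]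
    exact hpr
  · rw [if_neg (fun h => hc (hiff.mp h)), zero_mul]
    by_cases h2 : P x.1
    · rw [if_neg (fun h => hc ⟨h2, h⟩), mul_zero]
    · rw [if_neg h2, zero_mul]

/-- weight of no bad event in `J` -/
noncomputable def G (w : C → ℝ) (B : ι → (T → C) → Prop) (J : Finset ι) : ℝ :=
  W w (fun ω => ∀ j ∈ J, ¬ B j ω)

theorem key [Fintype ι] {w : C → ℝ} (hw : ∀ c, 0 ≤ w c) (h1 : ∑ c, w c = 1)
    (B : ι → (T → C) → Prop) (S : ι → Finset T) (hB : ∀ i, Dep (B i) (S i)) (p : ℝ) (d : ℕ)
    (hp0 : 0 ≤ p) (hp : ∀ i, W w (B i) ≤ p)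
    (hd : ∀ i, (univ.filter (fun j => ¬ Disjoint (S i) (S j))).card ≤ d) (h4 : 4 * p * d ≤ 1) :
    ∀ (n : ℕ) (J : Finset ι), J.card = n → ∀ i,
      W w (fun ω => B i ω ∧ ∀ j ∈ J, ¬ B j ω) ≤ 2 * p * G w B J := by
  intro n
  induction n using Nat.strong_induction_on with
  | _ n ih =>
    intro J hJn i
    set J1 := J.filter (fun j => ¬ Disjoint (S i) (S j)) with hJ1
    set J2 := J.filter (fun j => Disjoint (S i) (S j)) with hJ2
    have hJ2J : J2 ⊆ J := Finset.filter_subset _ _
    have hJ1J : J1 ⊆ J := Finset.filter_subset _ _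
    have hG : ∀ K : Finset ι, 0 ≤ G w B K := fun K => W_nonneg hw _
    have hnum : W w (fun ω => B i ω ∧ ∀ j ∈ J, ¬ B j ω) ≤ p * G w B J2 := by
      have e1 : W w (fun ω => B i ω ∧ ∀ j ∈ J, ¬ B j ω)
          ≤ W w (fun ω => B i ω ∧ ∀ j ∈ J2, ¬ B j ω) :=
        W_mono hw (fun ω h => ⟨h.1, fun j hj => h.2 j (hJ2J hj)⟩)
      have e2 : W w (fun ω => B i ω ∧ ∀ j ∈ J2, ¬ B j ω) = W w (B i) * G w B J2 := by
        refine indep h1 (B i) (fun ω => ∀ j ∈ J2, ¬ B j ω) (S i) (hB i) ?_
        intro ω ω' hω hall j hj hbad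
        refine hall j hj (hB j ω' ω ?_ hbad)
        intro t ht
        have hdis : Disjoint (S i) (S j) := (Finset.mem_filter.mp hj).2
        exact (hω t (fun hti => (Finset.disjoint_left.mp hdis hti ht))).symm
      rw [e2] at e1
      exact e1.trans (mul_le_mul_of_nonneg_right (hp i) (hG _))
    by_cases hemp : J1 = ∅
    · have hJJ2 : J2 = J := by
        refine Finset.Subset.antisymm hJ2J ?_
        intro j hj
        rw [hJ2, Finset.mem_filter]
        refine ⟨hj, ?_⟩
        by_contra hnd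
        have : j ∈ J1 := by rw [hJ1, Finset.mem_filter]; exact ⟨hj, hnd⟩
        rw [hemp] at this
        exact absurd this (Finset.notMem_empty _)
      rw [hJJ2] at hnum
      have : 0 ≤ p * G w B J := mul_nonneg hp0 (hG _)
      linarith
    · have hJ2card : J2.card < n := by
        rw [← hJn]
        refine Finset.card_lt_card ⟨hJ2J, ?_⟩
        intro hsub
        obtain ⟨j, hj⟩ := Finset.nonempty_iff_ne_empty.mpr hemp
        have h1 := (Finset.mem_filter.mp hj).2
        have h2 := (Finset.mem_filter.mp (hsub (hJ1J hj))).2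
        exact h1 h2
      have hden : G w B J2 ≤ G w B J + ∑ j ∈ J1, 2 * p * G w B J2 := by
        have h3 : G w B J2 ≤ G w B J +
            ∑ j ∈ J1, W w (fun ω => B j ω ∧ ∀ j' ∈ J2, ¬ B j' ω) := by
          refine W_cover hw J1 _ ?_
          intro ω hω
          by_cases hall : ∀ j ∈ J, ¬ B j ω
          · exact Or.inl hall
          · right
            push Not at hall
            obtain ⟨j, hj, hbad⟩ := hall
            refine ⟨j, ?_, hbad, hω⟩
            rw [hJ1, Finset.mem_filter]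
            refine ⟨hj, fun hdis => ?_⟩
            exact hω j (by rw [hJ2, Finset.mem_filter]; exact ⟨hj, hdis⟩) hbad
        refine h3.trans (add_le_add le_rfl (Finset.sum_le_sum (fun j _ => ?_)))
        exact ih J2.card hJ2card J2 rfl j
      rw [Finset.sum_const, nsmul_eq_mul] at hden
      have hJ1d : (J1.card : ℝ) ≤ d := by
        have : J1.card ≤ d := by
          refine le_trans (Finset.card_le_card ?_) (hd i)
          intro j hj
          rw [Finset.mem_filter]
          exact ⟨Finset.mem_univ _, (Finset.mem_filter.mp hj).2⟩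
        exact_mod_cast this
      have hG2 := hG J2
      have h6 : (J1.card : ℝ) * (2 * p * G w B J2) ≤ (1 / 2) * G w B J2 := by
        have : (J1.card : ℝ) * (2 * p) ≤ 1 / 2 := by
          have : (J1.card : ℝ) * (2 * p) ≤ d * (2 * p) :=
            mul_le_mul_of_nonneg_right hJ1d (by linarith)
          linarith
        calc (J1.card : ℝ) * (2 * p * G w B J2) = ((J1.card : ℝ) * (2 * p)) * G w B J2 := by
              ring
          _ ≤ (1 / 2) * G w B J2 := mul_le_mul_of_nonneg_right this hG2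
      have h7 : G w B J2 ≤ 2 * G w B J := by linarith
      calc W w (fun ω => B i ω ∧ ∀ j ∈ J, ¬ B j ω) ≤ p * G w B J2 := hnum
        _ ≤ p * (2 * G w B J) := mul_le_mul_of_nonneg_left h7 hp0
        _ = 2 * p * G w B J := by ring

end wl

/-- the weighted symmetric local lemma -/
theorem t_WLLL : S_WLLL := by
  intro T C ι _ _ _ w hw h1 B S hB p d hp0 hp hd h4 hd1
  have hp' : ∀ i, W w (B i) ≤ p := fun i => by rw [W_eq]; exact hp i
  have hp4 : 4 * p ≤ 1 := by
    have : (1 : ℝ) ≤ d := by exact_mod_cast hd1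
    nlinarith
  have hpos : ∀ J : Finset ι, 0 < G w B J := by
    intro J
    induction J using Finset.induction_on with
    | empty =>
      have : G w B (∅ : Finset ι) = 1 := by
        rw [G, W, ← W_true (T := T) h1]
        refine Finset.sum_congr rfl fun ω _ => ?_
        rw [if_pos (by simp)]
      rw [this]; exact one_pos
    | insert i J hiJ hJ =>
      have hk := key hw h1 B S hB p d hp0 hp' hd h4 J.card J rfl i
      have hsplit : G w B J ≤ G w B (insert i J) +
          ∑ j ∈ {i}, W w (fun ω => B j ω ∧ ∀ j ∈ J, ¬ B j ω) := by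
        refine W_cover hw {i} _ ?_
        intro ω hω
        by_cases hb : B i ω
        · exact Or.inr ⟨i, Finset.mem_singleton_self _, hb, hω⟩
        · left
          intro j hj
          rcases Finset.mem_insert.mp hj with rfl | h
          · exact hb
          · exact hω j h
      rw [Finset.sum_singleton] at hsplit
      nlinarith
  have hI := hpos univ
  by_contra hcon
  push Not at hcon
  have : G w B univ = 0 := by
    rw [G, W]
    refine Finset.sum_eq_zero fun ω _ => ?_
    rw [if_neg]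
    intro h
    obtain ⟨i, hi⟩ := hcon ω
    exact h i (Finset.mem_univ _) hi
  linarith

end Pool.Agent.K1H97.UNI
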